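import Pool.Agent.Y36.SG.Grig
import Pool.Agent.Y36.SG.Expo
import Pool.Agent.Results.MP_bbfbdc_al.SphereExact

set_option autoImplicit false

/-!
# Stretched exponential spheres in arbitrary finitely generated groups

For a set `S` of generators of a group, `wball S n` and `wsph S n` are the numbers of elements of
word length at most `n` and exactly `n` (letters from `S` and inverses), see
`Pool/Agent/Y36/SG/Basic.lean`.  The first Grigorchuk group `G` and the number `sph n` of its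
elements of length `n` with respect to `a, b, c, d` are in
`Pool/Agent/Results/MP_03d093_al/SphereBall.lean`; `lam ≈ 2.4675` is the positive root of
`x³ = x² + 2x + 4` and `alpha = log 2 / log lam ≈ 0.7674` (`Pool/Agent/H776R2/Grig/Defs.lean`).
-/

namespace Pool.Agent.Results.MP_bbfbdc_al.AllGeneratingSets

open Pool.Agent.Y36.SG Pool.Agent.Results.MP_03d093_al Pool.Agent.H776R2.Grig

theorem grig_lower : ∃ C : ℕ, 1 ≤ C ∧ ∀ n : ℕ,
    Real.exp ((n : ℝ) ^ alpha) ≤ (wball gens (C * n) : ℝ) := by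
  obtain ⟨-, -, C, hC, h, -⟩ := SphereExact.result
  refine ⟨C, hC, fun n => (h n (C * n) le_rfl).trans ?_⟩
  rw [← ball_eq]
  exact_mod_cast SphereBall.sph_le_ball _

theorem grig_upper : ∃ C : ℕ, 1 ≤ C ∧ ∀ n : ℕ,
    (wball gens n : ℝ) ≤ Real.exp (((C * n : ℕ) : ℝ) ^ alpha) := by
  obtain ⟨-, -, -, C, hC, h⟩ := Pool.Agent.Results.MP_6985d1_al.ExactGrowth.result
  refine ⟨C, hC, fun n => ?_⟩
  rw [← ball_eq]
  exact le_trans (by exact_mod_cast h n) (Nat.floor_le (Real.exp_pos _).le)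

theorem alpha_pos : 0 < alpha := by
  obtain ⟨-, h, -⟩ := SphereExact.result
  linarith [h.1]

/-- Every finitely generated group containing the first Grigorchuk group. -/
theorem contains_lower (Γ : Type) [Group Γ] (ι : SphereBall.G →* Γ) (hι : Function.Injective ι)
    (S : Set Γ) (hf : S.Finite) (hS : Subgroup.closure S = ⊤) :
    ∃ C : ℕ, 1 ≤ C ∧ ∀ n N : ℕ, C * n ≤ N → Real.exp ((n : ℝ) ^ alpha) ≤ (wsph S N : ℝ) := by
  have : Infinite Γ := Infinite.of_injective ι hι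
  apply sphere_lower hf hS alpha alpha_pos
  obtain ⟨C, hC, h⟩ := grig_lower
  obtain ⟨K, hK, h1⟩ := exists_wball_hom ι hι gens_finite gens_closure hf hS
  refine ⟨K * C, Nat.succ_le_of_lt (by positivity), fun n => (h n).trans ?_⟩
  have h2 := h1 (C * n)
  rw [← mul_assoc] at h2
  exact_mod_cast h2

/-- **Theorem.**  (1) Let `S` be a finite generating set of an infinite group and `α > 0`.  If
`exp(n^α) ≤ γ(C n)` for a constant `C` and all `n`, then `exp(n^α) ≤ γ^sph(N)` for a constant `C'`,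
all `n` and all `N ≥ C' n` (and conversely).
(2) If a group with finite generating set `S` contains a copy of the first Grigorchuk group, then
`exp(n^alpha) ≤ γ^sph(N)` for a constant `C`, all `n` and all `N ≥ C n`.
(3) For every finite generating set `S` of the first Grigorchuk group there is a constant `C` with
`exp(n^alpha) ≤ γ_S^sph(N)` for all `n` and all `N ≥ C n`, and `γ_S^sph(n) ≤ exp((C n)^alpha)` for all
`n`.
(4) This holds in particular for the generating set `{a, b, c, d}`, and `3/4 < alpha < 10/13`. -/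
theorem result :
    (∀ (Γ : Type) [Group Γ] [Infinite Γ] (S : Set Γ), S.Finite → Subgroup.closure S = ⊤ →
      ∀ α : ℝ, 0 < α →
      ((∃ C : ℕ, 1 ≤ C ∧ ∀ n : ℕ, Real.exp ((n : ℝ) ^ α) ≤ (wball S (C * n) : ℝ)) ↔
        ∃ C : ℕ, 1 ≤ C ∧ ∀ n N : ℕ, C * n ≤ N → Real.exp ((n : ℝ) ^ α) ≤ (wsph S N : ℝ))) ∧
    (∀ (Γ : Type) [Group Γ] (ι : SphereBall.G →* Γ), Function.Injective ι →
      ∀ S : Set Γ, S.Finite → Subgroup.closure S = ⊤ →
      ∃ C : ℕ, 1 ≤ C ∧ ∀ n N : ℕ, C * n ≤ N → Real.exp ((n : ℝ) ^ alpha) ≤ (wsph S N : ℝ)) ∧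
    (∀ S : Set SphereBall.G, S.Finite → Subgroup.closure S = ⊤ →
      ∃ C : ℕ, 1 ≤ C ∧
        (∀ n N : ℕ, C * n ≤ N → Real.exp ((n : ℝ) ^ alpha) ≤ (wsph S N : ℝ)) ∧
        (∀ n : ℕ, (wsph S n : ℝ) ≤ Real.exp (((C * n : ℕ) : ℝ) ^ alpha))) ∧
    ((0 < lam ∧ lam ^ 3 = lam ^ 2 + 2 * lam + 4) ∧ (3 / 4 < alpha ∧ alpha < 10 / 13) ∧
      ∃ C : ℕ, 1 ≤ C ∧
        (∀ n N : ℕ, C * n ≤ N → Real.exp ((n : ℝ) ^ alpha) ≤ (SphereBall.sph N : ℝ)) ∧
        (∀ n : ℕ, (SphereBall.sph n : ℝ) ≤ Real.exp (((C * n : ℕ) : ℝ) ^ alpha))) := by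
  refine ⟨?_, fun Γ _ ι hι S hf hS => contains_lower Γ ι hι S hf hS, ?_, SphereExact.result⟩
  · intro Γ _ _ S hf hS α hα
    refine ⟨sphere_lower hf hS α hα, ?_⟩
    rintro ⟨C, hC, h⟩
    refine ⟨C, hC, fun n => (h n (C * n) le_rfl).trans ?_⟩
    exact_mod_cast wsph_le_wball hf hS _
  · intro S hf hS
    obtain ⟨C1, hC1, h1⟩ :=
      contains_lower SphereBall.G (MonoidHom.id _) Function.injective_id S hf hS
    obtain ⟨C2, hC2, h2⟩ := grig_upper
    obtain ⟨K, hK, h3⟩ := exists_wball hf hS gens_finite gens_closure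
    refine ⟨C1 + C2 * K, by omega, fun n N hN => h1 n N (le_trans ?_ hN), fun n => ?_⟩
    · exact Nat.mul_le_mul_right _ (Nat.le_add_right _ _)
    · have h4 : (wsph S n : ℝ) ≤ (wball gens (K * n) : ℝ) := by
        exact_mod_cast (wsph_le_wball hf hS n).trans (h3 n)
      refine h4.trans ((h2 (K * n)).trans (Real.exp_le_exp.2 ?_))
      apply Real.rpow_le_rpow (by positivity) _ alpha_pos.le
      have h5 : C2 * (K * n) ≤ (C1 + C2 * K) * n := by
        rw [← mul_assoc]; exact Nat.mul_le_mul_right _ (Nat.le_add_left _ _)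
      exact_mod_cast h5

end Pool.Agent.Results.MP_bbfbdc_al.AllGeneratingSets
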